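import Pool.Agent.Q222.LU.FLUX
import Pool.Agent.Q77.LU.StmV

/-!
# Project LU, job FLUXU: the splitting of the lowest levels is exponentially small, uniform version

The proof is the one of helper222 (`Pool/Agent/Q222/LU/FLUX.lean`) with explicit constants.
-/

set_option autoImplicit false

namespace Pool.Agent.Q272.LU

open Pool.Agent.Q77.LU Pool.Agent.Q222.LU MeasureTheory Matrix Set Filter Topology
open scoped ContDiff Matrix.Norms.Frobenius

noncomputable section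

theorem flux_core {N n D l : ℕ} [NeZero l] {G : Subgroup (UU N)}
    (hG : IsClosed (G : Set (UU N))) (B : LieBasis G n) [MeasurableSpace G]
    [BorelSpace G] (μ : Measure G) [IsProbabilityMeasure μ] [μ.IsHaarMeasure]
    [Fintype (Subgroup.center G)] (h2 : S_CIG) (h9 : S_HC)
    {δ : ℝ} {κ : (Link D l → G) → ℝ} (hδ : 0 < δ) (hκ : IsSmooth κ) (hκg : GaugeInv κ)
    (hS : Sel B δ κ) {g c c' C Kθ : ℝ} (hC : 0 < C) (hg : 0 < g) (hgle1 : g ≤ 1) (hKθ0 : 0 ≤ Kθ)
    (hgrθ : ∀ U : Link D l → G, gr B (fun U => th1 δ (tau B U)) U ≤ Kθ)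
    (hex1 : C * Real.exp (-c / g) ≤ 1 / 2)
    (hex2 : (2 + Kθ * C) * Real.exp (-c / g) ≤ Real.exp (-c' / g))
    (hAGM : ∃ d : ℝ, 0 < d ∧ ∀ F : (Link D l → G) → ℝ, IsSmooth F →
      GaugeInv F → ∫ U, F U ^ 2 ∂(Measure.pi fun _ : Link D l => μ) = 1 →
      energy B μ g F ≤ glevel D l B μ g 0 + d →
      ∫ U in {U | δ ≤ tau B U}, F U ^ 2 ∂(Measure.pi fun _ : Link D l => μ) ≤
        C * Real.exp (-c / g)) :
    glevel D l B μ g (Nat.card (Subgroup.center G) ^ D - 1) ≤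
      glevel D l B μ g 0 + Real.exp (-c' / g) := by
  have hcomp := compactG hG
  have hsct := sctG (G := G)
  obtain ⟨-, -, -, hτs, hτg, hτc, -, -, -⟩ := h9 N n D l G hG B
  have hτcont : Continuous (tau B : (Link D l → G) → ℝ) := hτs.continuous
  set θ : (Link D l → G) → ℝ := fun U => th1 δ (tau B U) with hθ
  have hθs : IsSmooth θ := hτs.comp (th1_smooth δ)
  have hθg : GaugeInv θ := fun γ U => by simp only [hθ]; rw [hτg]
  have hθc : CentreInv θ := fun z hz U => by simp only [hθ]; rw [hτc z hz]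
  have hdθ : ∀ (e : Link D l) (a : Fin n) (U : Link D l → G),
      dlink B e a θ U = deriv (th1 δ) (tau B U) * dlink B e a (tau B) U := fun e a U =>
    dlink_comp B ((th1_smooth δ).differentiable (by simp)) hτs e a U
  have hgrθ0 : ∀ U : Link D l → G, tau B U < δ → gr B θ U = 0 := by
    intro U hU
    unfold gr
    refine Finset.sum_eq_zero fun e _ => Finset.sum_eq_zero fun a _ => ?_
    rw [hdθ, th1_deriv_small hδ hU]
    simp
  obtain ⟨d, hd, hdF⟩ := hAGM
  set ε : ℝ := Real.exp (-c / g) with hε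
  have hεpos : 0 < ε := Real.exp_pos _
  set d' : ℝ := min d ε with hd'
  have hd'pos : 0 < d' := lt_min hd hεpos
  have hCIG := h2 N n D l G hG B μ g hg
  set E0 : ℝ := glevel D l B μ g 0 with hE0
  -- the function
  obtain ⟨F, ⟨hF, hFg, hFc⟩, hF1, hFE⟩ : ∃ F : (Link D l → G) → ℝ,
      (IsSmooth F ∧ GaugeInv F ∧ CentreInv F) ∧
      ∫ U, F U ^ 2 ∂(Measure.pi fun _ : Link D l => μ) = 1 ∧ energy B μ g F ≤ E0 + d' := by
    have hne := one_mem μ hG B g (D := D) (l := l)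
    have hlt : level D l B μ g 0 < E0 + d' := by rw [hCIG]; linarith
    obtain ⟨E, hE, hElt⟩ := exists_lt_of_csInf_lt hne hlt
    obtain ⟨F, hF, hF1, hFE⟩ := exists_of_mem μ B g E
      (P := fun F => IsSmooth F ∧ GaugeInv F ∧ CentreInv F) hE
    exact ⟨F, hF, hF1, hFE.trans hElt.le⟩
  have hagm := hdF F hF hFg hF1 (hFE.trans (by linarith [min_le_left d ε]))
  set T : Set (Link D l → G) := {U | δ ≤ tau B U} with hT
  have hTm : MeasurableSet T := (isClosed_le continuous_const hτcont).measurableSet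
  set H : (Link D l → G) → ℝ := fun U => Real.cos (θ U) * F U with hH
  have hHs : IsSmooth H := (hθs.comp Real.contDiff_cos).mul hF
  have hHg : GaugeInv H := fun γ U => by simp only [hH]; rw [hθg, hFg]
  have hHc : CentreInv H := fun z hz U => by simp only [hH]; rw [hθc z hz, hFc z hz]
  have hcos0 : ∀ U : Link D l → G, 2 * δ ≤ tau B U → Real.cos (θ U) = 0 := by
    intro U hU
    have : θ U = Real.pi / 2 := th1_large hδ (by linarith)
    rw [this, Real.cos_pi_div_two]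
  have hH0 : ∀ U, 2 * δ ≤ tau B U → H U = 0 := by
    intro U hU
    simp only [hH]
    rw [hcos0 U hU, zero_mul]
  have hH1 : ∀ U, 2 * δ ≤ tau B U → gr B H U = 0 := by
    intro U hU
    unfold gr
    refine Finset.sum_eq_zero fun e _ => Finset.sum_eq_zero fun a _ => ?_
    have e1 : dlink B e a (fun U => Real.cos (θ U)) U = -Real.sin (θ U) * dlink B e a θ U := by
      have := dlink_comp B Real.differentiable_cos hθs e a U
      rw [this, Real.deriv_cos]
    have e2 : dlink B e a H U = 0 := by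
      simp only [hH]
      rw [dlink_mul B (hθs.comp Real.contDiff_cos) hF, e1, hdθ,
        th1_deriv_large hδ (by linarith), hcos0 U hU]
      simp
    rw [e2]; simp
  have hsin_s : IsSmooth fun U => Real.sin (θ U) * F U := (hθs.comp Real.contDiff_sin).mul hF
  -- integrals
  have iF : Integrable (fun U => F U ^ 2) (Measure.pi fun _ : Link D l => μ) :=
    integrable_links μ hG (hF.continuous.pow 2)
  have iH : Integrable (fun U => H U ^ 2) (Measure.pi fun _ : Link D l => μ) :=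
    integrable_links μ hG (hHs.continuous.pow 2)
  have iS : Integrable (fun U => (Real.sin (θ U) * F U) ^ 2) (Measure.pi fun _ : Link D l => μ) :=
    integrable_links μ hG (hsin_s.continuous.pow 2)
  set IH : ℝ := ∫ U, H U ^ 2 ∂(Measure.pi fun _ : Link D l => μ) with hIH
  set IS : ℝ := ∫ U, (Real.sin (θ U) * F U) ^ 2 ∂(Measure.pi fun _ : Link D l => μ) with hIS
  have hsum : IH + IS = 1 := by
    rw [← hF1, hIH, hIS, ← integral_add iH iS]
    refine integral_congr_ae (ae_of_all _ fun U => ?_)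
    simp only [hH]
    have := Real.sin_sq_add_cos_sq (θ U)
    linear_combination F U ^ 2 * this
  have hISle : IS ≤ C * ε := by
    refine le_trans ?_ hagm
    rw [← integral_indicator hTm]
    refine integral_mono iS (iF.indicator hTm) fun U => ?_
    simp only
    by_cases hU : U ∈ T
    · rw [indicator_of_mem hU, mul_pow]
      have := Real.sin_sq_le_one (θ U)
      have h0 := sq_nonneg (F U)
      nlinarith
    · rw [indicator_of_notMem hU]
      have h0 : θ U = 0 := th1_small hδ (le_of_lt (not_le.1 hU))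
      rw [h0, Real.sin_zero]
      simp
  have hgr : ∫ U, gr B θ U * F U ^ 2 ∂(Measure.pi fun _ : Link D l => μ) ≤ Kθ * (C * ε) := by
    refine le_trans ?_ (mul_le_mul_of_nonneg_left hagm hKθ0)
    rw [← integral_indicator hTm, ← integral_const_mul]
    refine integral_mono (integrable_links μ hG ((gr_cont B hθs).mul (hF.continuous.pow 2)))
      ((iF.indicator hTm).const_mul _) fun U => ?_
    simp only
    by_cases hU : U ∈ T
    · rw [indicator_of_mem hU]
      exact mul_le_mul_of_nonneg_right (hgrθ U) (sq_nonneg _)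
    · rw [indicator_of_notMem hU, hgrθ0 U (not_le.1 hU)]
      simp
  have hen := energy_cos μ hG B g hθs hθg hF hFg
  have hEH : energy B μ g H ≤ E0 * IH + d' + g ^ 2 / 2 * (Kθ * (C * ε)) := by
    have e1 : E0 = E0 * IH + E0 * IS := by rw [← mul_add, hsum, mul_one]
    have e2 : g ^ 2 / 2 * (∫ U, gr B θ U * F U ^ 2 ∂(Measure.pi fun _ : Link D l => μ)) ≤
        g ^ 2 / 2 * (Kθ * (C * ε)) := mul_le_mul_of_nonneg_left hgr (by positivity)
    have e3 : energy B μ g H ≤ energy B μ g F +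
      g ^ 2 / 2 * (∫ U, gr B θ U * F U ^ 2 ∂(Measure.pi fun _ : Link D l => μ)) - E0 * IS := hen
    linarith
  have hIHge : 1 / 2 ≤ IH := by linarith
  have hIHpos : 0 < IH := by linarith
  have hquot : energy B μ g H / IH ≤ E0 + (2 + Kθ * C) * ε := by
    rw [div_le_iff₀ hIHpos]
    have e1 : d' ≤ ε := min_le_right _ _
    have e2 : g ^ 2 / 2 * (Kθ * (C * ε)) ≤ 1 / 2 * (Kθ * (C * ε)) := by
      refine mul_le_mul_of_nonneg_right ?_ (by positivity)
      nlinarith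
    have e3 : 1 / 2 * ((2 + Kθ * C) * ε) ≤ IH * ((2 + Kθ * C) * ε) :=
      mul_le_mul_of_nonneg_right hIHge (by positivity)
    have e4 : (E0 + (2 + Kθ * C) * ε) * IH = E0 * IH + IH * ((2 + Kθ * C) * ε) := by ring
    rw [e4]
    have e5 : 1 / 2 * ((2 + Kθ * C) * ε) = ε + 1 / 2 * (Kθ * (C * ε)) := by ring
    linarith
  refine le_trans ?_ (hquot.trans (by linarith))
  -- the family
  have hcard : Fintype.card (Fin D → Subgroup.center G) = Nat.card (Subgroup.center G) ^ D := by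
    rw [Fintype.card_fun, Fintype.card_fin, Nat.card_eq_fintype_card]
  have hcpos : 0 < Nat.card (Subgroup.center G) ^ D := by
    rw [← hcard]; exact Fintype.card_pos
  have hcard' : Fintype.card (Fin D → Subgroup.center G) =
      Nat.card (Subgroup.center G) ^ D - 1 + 1 := by omega
  set K : ℕ := Nat.card (Subgroup.center G) ^ D - 1 with hK
  let eq : Fin (K + 1) ≃ (Fin D → Subgroup.center G) := (Fintype.equivFinOfCardEq hcard').symm
  set m : ℝ := (Fintype.card (Fin D → Subgroup.center G) : ℝ) with hm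
  have hmpos : 0 < m := by rw [hm]; exact_mod_cast Fintype.card_pos
  set s : ℝ := Real.sqrt (m / IH) with hs
  have hs2 : s ^ 2 = m / IH := Real.sq_sqrt (by positivity)
  have hHsq0 : ∀ U, 2 * δ ≤ tau B U → H U ^ 2 = 0 := fun U hU => by rw [hH0 U hU]; simp
  have hHsqc : CentreInv fun U => H U ^ 2 := fun z hz U => by
    show H (centre z U) ^ 2 = H U ^ 2
    rw [hHc z hz]
  have hwsint : ∀ z, ∫ U, H U ^ 2 * ws κ z U ∂(Measure.pi fun _ : Link D l => μ) = IH / m :=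
    fun z => hS.int μ hG hκ (hHs.continuous.pow 2) hHsqc hHsq0 z
  refine csInf_le ?_ ?_
  · refine ⟨0, fun E' hE' => ?_⟩
    obtain ⟨Ψ, k1, -, k3⟩ := hE'
    have k4 := k3 (Pi.single 0 1)
    have k5 : 0 ≤ energy B μ g (fun U => ∑ i, (Pi.single 0 1 : Fin (K + 1) → ℝ) i * Ψ i U) :=
      energy_nonneg μ hG B g (IsSmooth.sum _ fun i _ => (IsSmooth.const _).mul (k1 i).1)
    have k6 : ∑ i, (Pi.single 0 1 : Fin (K + 1) → ℝ) i ^ 2 = 1 := by
      rw [Finset.sum_eq_single 0]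
      · simp
      · intro i _ hi
        simp [hi]
      · intro h; exact absurd (Finset.mem_univ _) h
    rw [k6, mul_one] at k4
    exact k5.trans k4
  · refine ⟨fun i U => s * (ws κ (eq i) U * H U), fun i => ⟨?_, ?_⟩, fun i j => ?_, fun b => ?_⟩
    · exact (IsSmooth.const s).mul ((ws_smooth hκ _).mul hHs)
    · intro γ U
      have e1 : ws κ (eq i) (gauge γ U) = ws κ (eq i) U :=
        gauge_centreInv hκg (iv_mem (eq i)) γ U
      show s * (ws κ (eq i) (gauge γ U) * H (gauge γ U)) = s * (ws κ (eq i) U * H U)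
      rw [e1, hHg]
    · by_cases hij : i = j
      · subst hij
        rw [if_pos rfl]
        have e1 : ∀ U, s * (ws κ (eq i) U * H U) * (s * (ws κ (eq i) U * H U)) =
            s ^ 2 * (H U ^ 2 * ws κ (eq i) U) := by
          intro U
          by_cases hU : tau B U < 2 * δ
          · obtain ⟨z0, h0⟩ := hS U hU
            by_cases hz : eq i = z0
            · rw [(h0 _).1 hz]; ring
            · rw [(h0 _).2 hz]; ring
          · rw [hH0 U (not_lt.1 hU)]; ring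
        rw [integral_congr_ae (ae_of_all _ e1), integral_const_mul, hwsint, hs2]
        field_simp
      · rw [if_neg hij]
        have hne : eq i ≠ eq j := fun h => hij (eq.injective h)
        have e1 : ∀ U, s * (ws κ (eq i) U * H U) * (s * (ws κ (eq j) U * H U)) = 0 := by
          intro U
          by_cases hU : tau B U < 2 * δ
          · obtain ⟨z0, h0⟩ := hS U hU
            by_cases hz : eq i = z0
            · rw [(h0 (eq j)).2 fun h => hne (hz.trans h.symm)]; ring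
            · rw [(h0 (eq i)).2 hz]; ring
          · rw [hH0 U (not_lt.1 hU)]; ring
        rw [integral_congr_ae (ae_of_all _ e1), integral_zero]
    · have e1 : (fun U => ∑ i, b i * (s * (ws κ (eq i) U * H U))) =
          fun U => s * ((∑ z, b (eq.symm z) * ws κ z U) * H U) := by
        funext U
        have e2 : ∑ z, b (eq.symm z) * ws κ z U = ∑ i, b i * ws κ (eq i) U := by
          rw [← Equiv.sum_comp eq]
          refine Finset.sum_congr rfl fun i _ => ?_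
          rw [Equiv.symm_apply_apply]
        rw [e2, Finset.sum_mul, Finset.mul_sum]
        refine Finset.sum_congr rfl fun i _ => ?_
        ring
      have hk : IsSmooth fun U => (∑ z, b (eq.symm z) * ws κ z U) * H U :=
        (IsSmooth.sum _ fun z _ => (IsSmooth.const _).mul (ws_smooth hκ z)).mul hHs
      rw [e1, energy_smul μ hG B g s hk,
        hS.energy μ hG hτcont hκ hHs hHc hH0 hH1 g fun z => b (eq.symm z), hs2]
      have e3 : ∑ z, b (eq.symm z) ^ 2 = ∑ i, b i ^ 2 := by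
        rw [← Equiv.sum_comp eq]
        refine Finset.sum_congr rfl fun i _ => ?_
        rw [Equiv.symm_apply_apply]
      rw [e3]
      refine le_of_eq ?_
      have e4 : ∀ x y : ℝ, m / IH * (x / m * y) = x / IH * y := by
        intro x y
        have := hmpos.ne'
        have := hIHpos.ne'
        field_simp
      exact e4 _ _


theorem InvR.mono {N n D l : ℕ} [NeZero l] {G : Subgroup (UU N)} {B : LieBasis G n} {dc : Dec B D l}
    {r s : ℝ} (h : InvR dc r) (hs : 0 < s) (hsr : s ≤ r) : InvR dc s := by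
  obtain ⟨Ξ, h1, h2⟩ := h.inv
  have hsq : s ^ 2 ≤ r ^ 2 := pow_le_pow_left₀ hs.le hsr 2
  exact ⟨hs, ⟨Ξ, h1, fun x hx => h2 x (hx.trans_le hsq)⟩, fun ρ h3 h4 => h.opn ρ h3 (h4.trans hsr),
    fun ρ h3 h4 V hV => h.bal ρ h3 (h4.trans hsr) V fun e =>
      (hV e).trans_le (mul_le_mul_of_nonneg_right hsr h3.le)⟩

theorem UniR.mono {N n D l : ℕ} [NeZero l] {G : Subgroup (UU N)} {B : LieBasis G n} {dc : Dec B D l}
    {r s : ℝ} (h : UniR dc r) (hs : 0 < s) (hsr : s ≤ r) : UniR dc s := by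
  have hsq : s ^ 2 ≤ r ^ 2 := pow_le_pow_left₀ hs.le hsr 2
  exact ⟨hs, fun γ z x y h1 h2 h3 h4 => h.uniq γ z x y h1 (h2.trans_le hsq) (h3.trans_le hsq) h4,
    fun ρ h3 h4 => h.opn ρ h3 (h4.trans hsr)⟩

theorem exists_wellsU {N n D l : ℕ} [NeZero l] {G : Subgroup (UU N)} (h3 : S_LIFTU) (h10 : S_SYMM)
    (hG : IsClosed (G : Set (UU N))) (B : LieBasis G n)
    (hB : NoCentre B) (dc : Dec B D l) {r δ : ℝ} (hInv : InvR dc r) (hUni : UniR dc r)
    (hδo : ∀ U : Link D l → G, tau B U < 2 * δ → Orb dc (r / 4) U) :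
    ∃ κ : (Link D l → G) → ℝ, IsSmooth κ ∧ GaugeInv κ ∧ Sel B δ κ := by
  have hrpos : 0 < r := hInv.pos
  set ρ1 : ℝ := r / 2 with hρ1
  set ρ : ℝ := r / 4 with hρ
  have hρ1pos : 0 < ρ1 := by positivity
  have hρpos : 0 < ρ := by positivity
  have hρρ1 : ρ < ρ1 := by rw [hρ, hρ1]; linarith
  have hρ1u : ρ1 < r := by rw [hρ1]; linarith
  have hsq : ρ ^ 2 < ρ1 ^ 2 := pow_lt_pow_left₀ hρρ1 hρpos.le two_ne_zero
  have hsqu : ρ1 ^ 2 < r ^ 2 := pow_lt_pow_left₀ hρ1u hρ1pos.le two_ne_zero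
  have hdpos : 0 < ρ1 ^ 2 - ρ ^ 2 := by linarith
  set f : (Fin D × Fin n → ℝ) × (Fin dc.M → ℝ) → ℝ :=
    fun x => Real.smoothTransition ((ρ1 ^ 2 - nx x) / (ρ1 ^ 2 - ρ ^ 2)) with hf
  have hfs : ContDiff ℝ ∞ f := by
    have h1 : ContDiff ℝ ∞ fun x : (Fin D × Fin n → ℝ) × (Fin dc.M → ℝ) =>
        (ρ1 ^ 2 - nx x) / (ρ1 ^ 2 - ρ ^ 2) :=
      (contDiff_const.sub contDiff_nx).div_const _
    exact (Real.smoothTransition.contDiff (n := ⊤)).comp h1
  have hf0 : ∀ x, f x ≠ 0 → nx x < ρ1 ^ 2 := by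
    intro x hx
    by_contra hn
    push Not at hn
    refine hx (Real.smoothTransition.zero_of_nonpos ?_)
    exact div_nonpos_of_nonpos_of_nonneg (by linarith) hdpos.le
  have hf1 : ∀ x, nx x < ρ ^ 2 → f x = 1 := by
    intro x hx
    refine Real.smoothTransition.one_of_one_le ?_
    rw [le_div_iff₀ hdpos]
    linarith
  have hfsg : ∀ h x, f (dc.sg h x) = f x := by
    intro h x
    obtain ⟨-, e1, e2, -⟩ := h10 N n D l G hG B dc h x
    simp only [hf, nx, e1, e2]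
  obtain ⟨-, κ, hκs, hκg, hκf, hκo⟩ := h3 N n D G hG B hB l dc r hInv hUni ρ1 hρ1pos hρ1u f hfs hf0 hfsg
  refine ⟨κ, hκs, hκg, fun U hU => ?_⟩
  obtain ⟨γ, z0, x, hz0, hx, rfl⟩ := hδo U hU
  set z0' : Fin D → Subgroup.center G := fun i => ⟨z0 i, hz0 i⟩ with hz0'
  have hval : ∀ z : Fin D → Subgroup.center G,
      κ (centre (iv z) (gauge γ (centre z0 (dc.ch x)))) =
        κ (centre (fun i => iv z i * z0 i) (dc.ch x)) := by
    intro z
    rw [← Pool.Agent.Q65.LU.gauge_centre (iv_mem z), hκg, Pool.Agent.Q65.LU.centre_centre]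
  refine ⟨z0', fun z => ⟨fun hz => ?_, fun hz => ?_⟩⟩
  · show κ (centre (iv z) _) = 1
    rw [hval, hz]
    have h1 : ∀ i, iv z0' i * z0 i = 1 := fun i => inv_mul_cancel (z0 i)
    rw [Pool.Agent.Q65.LU.centre_eq_one h1, hκf x (by linarith), hf1 x hx]
  · show κ (centre (iv z) _) = 0
    rw [hval]
    by_contra hne
    obtain ⟨γ', y, hy, hyU⟩ := hκo _ hne
    have h1 : dc.ch y = gauge (fun w => (γ' w)⁻¹) (centre (fun i => iv z i * z0 i) (dc.ch x)) := by
      rw [hyU, Pool.Agent.Q65.LU.gauge_gauge]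
      have : (fun w => (γ' w)⁻¹ * γ' w) = fun _ : Fin D → ZMod l => (1 : G) := by
        funext w; exact inv_mul_cancel _
      rw [this, Pool.Agent.Q65.LU.gauge_one]
    obtain ⟨h2, -⟩ := hUni.uniq (fun w => (γ' w)⁻¹) (fun i => iv z i * z0 i) y x
      (fun i => mul_mem (iv_mem z i) (hz0 i)) (by linarith) (by linarith) h1
    refine hz (funext fun i => ?_)
    have h3 := h2 i
    have h4 : (z i : G) = z0 i := by
      have h5 : ((z i : G))⁻¹ * z0 i = 1 := h3
      exact (inv_mul_eq_one.1 h5)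
    exact Subtype.ext h4

/-- the derivative of the transition function is bounded -/
theorem exists_S : ∃ S : ℝ, 1 ≤ S ∧ ∀ t : ℝ, |deriv Real.smoothTransition t| ≤ S := by
  have hc : Continuous (deriv Real.smoothTransition) :=
    (Real.smoothTransition.contDiff (n := 1)).continuous_deriv le_rfl
  obtain ⟨S0, hS0⟩ := (isCompact_Icc (a := (0 : ℝ)) (b := 1)).exists_bound_of_continuousOn hc.continuousOn
  refine ⟨max S0 1, le_max_right _ _, fun t => ?_⟩
  rcases lt_or_ge t 0 with h | h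
  · have h1 : Real.smoothTransition =ᶠ[𝓝 t] fun _ => 0 := by
      filter_upwards [Iio_mem_nhds h] with s hs
      exact Real.smoothTransition.zero_of_nonpos (le_of_lt hs)
    rw [h1.deriv_eq, deriv_const, abs_zero]
    exact zero_le_one.trans (le_max_right _ _)
  · rcases lt_or_ge 1 t with h' | h'
    · have h1 : Real.smoothTransition =ᶠ[𝓝 t] fun _ => 1 := by
        filter_upwards [Ioi_mem_nhds h'] with s hs
        exact Real.smoothTransition.one_of_one_le (le_of_lt hs)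
      rw [h1.deriv_eq, deriv_const, abs_zero]
      exact zero_le_one.trans (le_max_right _ _)
    · exact (hS0 t ⟨h, h'⟩).trans (le_max_left _ _)

theorem th1_deriv_bd {S : ℝ} (hS : ∀ t : ℝ, |deriv Real.smoothTransition t| ≤ S) {δ : ℝ}
    (hδ : 0 < δ) (t : ℝ) : deriv (th1 δ) t ^ 2 ≤ (Real.pi * S / δ) ^ 2 := by
  have hd : Differentiable ℝ Real.smoothTransition :=
    (Real.smoothTransition.contDiff (n := 1)).differentiable (by simp)
  have h1 : HasDerivAt (fun t : ℝ => 2 * (t / δ - 1)) (2 * (1 / δ)) t :=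
    (((hasDerivAt_id t).div_const δ).sub_const 1).const_mul 2
  have h2 := ((hd (2 * (t / δ - 1))).hasDerivAt.comp t h1).const_mul (Real.pi / 2)
  have h3 : deriv (th1 δ) t = Real.pi / 2 * (deriv Real.smoothTransition (2 * (t / δ - 1)) * (2 * (1 / δ))) := h2.deriv
  rw [h3, ← sq_abs]
  have h4 : |Real.pi / 2 * (deriv Real.smoothTransition (2 * (t / δ - 1)) * (2 * (1 / δ)))| ≤ Real.pi * S / δ := by
    rw [abs_mul, abs_mul, abs_of_pos (by positivity : (0 : ℝ) < Real.pi / 2),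
      abs_of_pos (by positivity : (0 : ℝ) < 2 * (1 / δ))]
    calc Real.pi / 2 * (|deriv Real.smoothTransition (2 * (t / δ - 1))| * (2 * (1 / δ)))
        ≤ Real.pi / 2 * (S * (2 * (1 / δ))) := by
          have := hS (2 * (t / δ - 1))
          gcongr
      _ = Real.pi * S / δ := by ring
  exact pow_le_pow_left₀ (abs_nonneg _) h4 2

theorem t_FLUXU (h1 : S_AGMU) (h2 : S_CIG) (h3 : S_LIFTU) (h4 : S_TAUOU) (h5 : S_UNIQU)
    (h6 : S_INVU) (h7 : S_GRADT) (h8 : S_DEC) (h9 : S_FINC) (h10 : S_HC) (h11 : S_SYMM) :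
    S_FLUXU := by
  intro N n D G hG hconn B _ _ μ _ _ hB hD hn
  have hfin : Finite (Subgroup.center G) := h9 N n G hG B hB
  let _ : Fintype (Subgroup.center G) := Fintype.ofFinite _
  obtain ⟨p1, C1, hC1, hAGM⟩ := h1 N n D G hG hconn B μ hB hD hn
  obtain ⟨p4, C4, hC4, hTAU⟩ := h4 N n D G hG hconn B hB
  obtain ⟨p5, C5, hC5, hUNI⟩ := h5 N n D G hG B hB
  obtain ⟨p6, C6, hC6, hINV⟩ := h6 N n D G hG B
  obtain ⟨p7, C7, hC7, hGRA⟩ := h7 N n D G hG B
  obtain ⟨S, hS1, hS⟩ := exists_S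
  obtain ⟨p0, hp0⟩ : ∃ p0, p0 = p4 + p5 + p6 + p7 + 1 := ⟨_, rfl⟩
  obtain ⟨C0, hC0⟩ : ∃ C0, C0 = C4 * C5 * C6 * C7 := ⟨_, rfl⟩
  have hC45 : 1 ≤ C4 * C5 := one_le_mul_of_one_le_of_one_le hC4 hC5
  have hC456 : 1 ≤ C4 * C5 * C6 := one_le_mul_of_one_le_of_one_le hC45 hC6
  have hC0' : 1 ≤ C0 := by rw [hC0]; exact one_le_mul_of_one_le_of_one_le hC456 hC7
  have hC04 : C4 ≤ C0 := by
    rw [hC0, mul_assoc, mul_assoc]
    exact le_mul_of_one_le_right (by linarith) (one_le_mul_of_one_le_of_one_le hC5 (one_le_mul_of_one_le_of_one_le hC6 hC7))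
  have hC05 : C5 ≤ C0 := by
    rw [hC0, mul_comm C4 C5, mul_assoc, mul_assoc]
    exact le_mul_of_one_le_right (by linarith) (one_le_mul_of_one_le_of_one_le hC4 (one_le_mul_of_one_le_of_one_le hC6 hC7))
  have hC06 : C6 ≤ C0 := by
    rw [hC0, mul_comm (C4 * C5) C6, mul_assoc]
    exact le_mul_of_one_le_right (by linarith) (one_le_mul_of_one_le_of_one_le hC45 hC7)
  have hC07 : C7 ≤ C0 := by
    rw [hC0, mul_comm (C4 * C5 * C6) C7]
    exact le_mul_of_one_le_right (by linarith) hC456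
  obtain ⟨A, hA⟩ : ∃ A : ℝ, A = C1 * 32 ^ p1 := ⟨_, rfl⟩
  obtain ⟨Bc, hBc⟩ : ∃ Bc : ℝ, Bc = (Real.pi * S * 32) ^ 2 := ⟨_, rfl⟩
  have hA1 : 1 ≤ A := by
    rw [hA]; exact one_le_mul_of_one_le_of_one_le hC1 (one_le_pow₀ (by norm_num))
  have hB1 : 1 ≤ Bc := by
    rw [hBc]
    refine one_le_pow₀ ?_
    have := Real.pi_gt_three
    nlinarith
  refine ⟨p0 * (8 * p1 + 9), (4 * A + 2 * Bc * A ^ 2) * C0 ^ (8 * p1 + 9), ?_, ?_⟩
  · refine one_le_mul_of_one_le_of_one_le ?_ (one_le_pow₀ hC0')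
    have : 0 ≤ 2 * Bc * A ^ 2 := by positivity
    linarith
  intro l _ g hg hgC
  obtain ⟨dc⟩ := h8 N n D l G hG B
  have hl1 : (1 : ℝ) ≤ l := by exact_mod_cast Nat.pos_of_ne_zero (NeZero.ne l)
  have hl0 : (0 : ℝ) < l := by linarith
  obtain ⟨Y, hY⟩ : ∃ Y : ℝ, Y = C0 * (l : ℝ) ^ p0 := ⟨_, rfl⟩
  have hYb : ∀ {p : ℕ} {C : ℝ}, 1 ≤ C → C ≤ C0 → p ≤ p0 → C * (l : ℝ) ^ p ≤ Y := by
    intro p C h1 h2 h3
    rw [hY]
    exact mul_le_mul h2 (pow_le_pow_right₀ hl1 h3) (by positivity) (by linarith)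
  have hY1 : 1 ≤ Y := by
    rw [hY]; exact one_le_mul_of_one_le_of_one_le hC0' (one_le_pow₀ hl1)
  have hY0 : 0 < Y := by linarith
  have hlY : (l : ℝ) ≤ Y := by
    have := hYb (p := 1) (C := 1) le_rfl hC0' (by omega)
    rwa [one_mul, pow_one] at this
  have hr0 : 0 < Y⁻¹ := inv_pos.2 hY0
  have hInv : InvR dc Y⁻¹ := InvR.mono (hINV l dc) hr0
    (inv_anti₀ (by positivity) (hYb hC6 hC06 (by omega)))
  have hUni : UniR dc Y⁻¹ := UniR.mono (hUNI l dc) hr0
    (inv_anti₀ (by positivity) (hYb hC5 hC05 (by omega)))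
  have h4Y : Y⁻¹ ≤ (C4 * (l : ℝ) ^ p4)⁻¹ := inv_anti₀ (by positivity) (hYb hC4 hC04 (by omega))
  obtain ⟨δ, hδ⟩ : ∃ δ : ℝ, δ = (32 * Y ^ 4)⁻¹ := ⟨_, rfl⟩
  have hδ0 : 0 < δ := by rw [hδ]; positivity
  have hY4 : 1 ≤ Y ^ 4 := one_le_pow₀ hY1
  have hδ1 : δ ≤ 1 := by
    rw [hδ]
    exact inv_le_one_of_one_le₀ (by linarith)
  have hδo : ∀ U : Link D l → G, tau B U < 2 * δ → Orb dc (Y⁻¹ / 4) U := by
    intro U hU
    refine hTAU l dc (Y⁻¹ / 4) (by positivity) (le_trans (by linarith) h4Y) U (hU.trans_le ?_)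
    have e1 : 2 * δ = (Y⁻¹ / 4 * Y⁻¹) ^ 2 := by
      rw [hδ]
      field_simp
      norm_num
    rw [e1]
    gcongr
  obtain ⟨κ, hκ, hκg, hSel⟩ := exists_wellsU h3 h11 hG B hB dc hInv hUni hδo
  obtain ⟨-, -, -, hτs, hτg, hτc, -, -, -⟩ := h10 N n D l G hG B
  -- constants
  obtain ⟨M1, hM1⟩ : ∃ M1 : ℝ, M1 = C1 * (32 * Y ^ 4) ^ p1 := ⟨_, rfl⟩
  have hM1e : M1 = A * Y ^ (4 * p1) := by
    rw [hM1, hA, mul_pow, ← pow_mul]
    ring
  have hM11 : 1 ≤ M1 := by
    rw [hM1e]; exact one_le_mul_of_one_le_of_one_le hA1 (one_le_pow₀ hY1)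
  have hM10 : 0 < M1 := by linarith
  obtain ⟨Kθ, hKθ⟩ : ∃ Kθ : ℝ, Kθ = Bc * Y ^ 9 := ⟨_, rfl⟩
  have hKθ0 : 0 ≤ Kθ := by rw [hKθ]; positivity
  have hgrθ : ∀ U : Link D l → G, gr B (fun U => th1 δ (tau B U)) U ≤ Kθ := by
    intro U
    have hdθ : ∀ (e : Link D l) (a : Fin n),
        dlink B e a (fun U => th1 δ (tau B U)) U = deriv (th1 δ) (tau B U) * dlink B e a (tau B) U := fun e a =>
      dlink_comp B ((th1_smooth δ).differentiable (by simp)) hτs e a U
    have e1 : gr B (fun U => th1 δ (tau B U)) U = deriv (th1 δ) (tau B U) ^ 2 * ∑ e, ∑ a, dlink B e a (tau B) U ^ 2 := by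
      unfold gr
      rw [Finset.mul_sum]
      refine Finset.sum_congr rfl fun e _ => ?_
      rw [Finset.mul_sum]
      refine Finset.sum_congr rfl fun a _ => ?_
      rw [hdθ, mul_pow]
    rw [e1]
    have e2 := th1_deriv_bd hS hδ0 (tau B U)
    have e3 : ∑ e, ∑ a, dlink B e a (tau B) U ^ 2 ≤ Y := (hGRA l U).trans (hYb hC7 hC07 (by omega))
    have e4 : 0 ≤ ∑ e, ∑ a, dlink B e a (tau B) U ^ 2 :=
      Finset.sum_nonneg fun e _ => Finset.sum_nonneg fun a _ => sq_nonneg _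
    calc deriv (th1 δ) (tau B U) ^ 2 * ∑ e, ∑ a, dlink B e a (tau B) U ^ 2
        ≤ (Real.pi * S / δ) ^ 2 * Y := mul_le_mul e2 e3 e4 (by positivity)
      _ = Kθ := by
        rw [hKθ, hBc, hδ]
        field_simp
  obtain ⟨Z, hZ⟩ : ∃ Z : ℝ, Z = (4 * A + 2 * Bc * A ^ 2) * Y ^ (8 * p1 + 9) := ⟨_, rfl⟩
  have hZe : Z = (4 * A + 2 * Bc * A ^ 2) * C0 ^ (8 * p1 + 9) * (l : ℝ) ^ (p0 * (8 * p1 + 9)) := by
    rw [hZ, hY, mul_pow, ← pow_mul]
    ring
  rw [← hZe] at hgC ⊢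
  have hZM : 2 * M1 * (2 + Kθ * M1) ≤ Z := by
    have e1 : 2 * M1 * (2 + Kθ * M1) = 4 * A * Y ^ (4 * p1) + 2 * Bc * A ^ 2 * Y ^ (8 * p1 + 9) := by
      rw [hM1e, hKθ]
      ring
    have e2 : Y ^ (4 * p1) ≤ Y ^ (8 * p1 + 9) := pow_le_pow_right₀ hY1 (by omega)
    rw [e1, hZ, add_mul]
    gcongr
  have hKM : 0 ≤ Kθ * M1 := by positivity
  have hK1 : 1 ≤ Kθ := by
    rw [hKθ]; exact one_le_mul_of_one_le_of_one_le hB1 (one_le_pow₀ hY1)
  have hM2Z : 2 * M1 ^ 2 ≤ Z := by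
    refine le_trans ?_ hZM
    have : M1 * 1 ≤ M1 * Kθ := mul_le_mul_of_nonneg_left hK1 hM10.le
    nlinarith
  have h2MZ : 2 * M1 ≤ Z := by
    refine le_trans ?_ hZM
    nlinarith
  have hZ0 : 0 < Z := by linarith
  have hgZ : g ≤ Z⁻¹ := by
    rw [inv_eq_one_div, le_div_iff₀ hZ0]
    linarith
  have hgM : g ≤ M1⁻¹ := hgZ.trans (inv_anti₀ hM10 (by linarith))
  have hg1 : g ≤ 1 := hgM.trans (inv_le_one_of_one_le₀ hM11)
  have hAGM' := hAGM l δ (32 * Y ^ 4) M1 (by nlinarith [pow_le_pow_right₀ hY1 (show 1 ≤ 4 by norm_num)])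
    (by rw [hδ]) hδ1 hM1 g hg hgM
  have hM1i : 0 < M1⁻¹ := inv_pos.2 hM10
  obtain ⟨hex1, hex2⟩ := exp_small hM1i hM10 hKθ0 hg
    (by
      refine hgZ.trans ?_
      rw [inv_eq_one_div, div_le_div_iff₀ hZ0 (by positivity)]
      calc 1 * (2 * (2 + Kθ * M1)) = M1⁻¹ * (2 * M1 * (2 + Kθ * M1)) := by field_simp
        _ ≤ M1⁻¹ * Z := by gcongr)
    (by
      refine hgZ.trans ?_
      rw [inv_eq_one_div, div_le_div_iff₀ hZ0 (by positivity)]
      calc 1 * (2 * M1) = M1⁻¹ * (2 * M1 ^ 2) := by field_simp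
        _ ≤ M1⁻¹ * Z := by gcongr)
  have hfin := flux_core hG B μ h2 h10 hδ0 hκ hκg hSel hM10 hg hg1 hKθ0 hgrθ hex1 hex2 hAGM'
  refine hfin.trans ?_
  have hexp : Real.exp (-(M1⁻¹ / 2) / g) ≤ Real.exp (-Z⁻¹ / g) := by
    apply Real.exp_le_exp.2
    rw [div_le_div_iff_of_pos_right hg, neg_le_neg_iff]
    calc Z⁻¹ ≤ (2 * M1)⁻¹ := inv_anti₀ (by positivity) h2MZ
      _ = M1⁻¹ / 2 := by field_simp
  linarith

end

end Pool.Agent.Q272.LU
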